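import Pool.Agent.Helper7_GTO.TRI

/-! Squad GTO, row DIS (the vertices of a run are different). -/

namespace Pool.Agent.GTO.H7

open Finset
open scoped Classical

theorem good_rot {ι : Type} (a : ι → V) (d : Dat ι) (h : Good a d) : Good a (rot d) := by
  obtain ⟨h1, h2, h3⟩ := h
  refine ⟨?_, ?_, ?_⟩
  · simp only [rot, List.nodup_cons, List.mem_cons, List.not_mem_nil, or_false, not_or,
      not_false_eq_true, List.nodup_nil, and_true] at h1 ⊢
    obtain ⟨⟨a1, a2, a3, a4, a5⟩, ⟨b1, b2, b3, b4⟩, ⟨c1, c2, c3⟩, ⟨d1, d2⟩, e1⟩ := h1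
    exact ⟨⟨b1, Ne.symm a1, b3, b4, b2⟩, ⟨Ne.symm a2, c2, c3, c1⟩, ⟨a4, a5, a3⟩,
      ⟨e1, Ne.symm d1⟩, Ne.symm d2⟩
  · simp only [rot]
    rw [dt_cyc2]
    exact h2
  · intro l hlv hlw hlu
    simp only [rot] at hlv hlw hlu ⊢
    obtain ⟨⟨p1, p2⟩, ⟨q1, q2⟩, ⟨r1, r2⟩⟩ := h3 l hlu hlv hlw
    refine ⟨⟨?_, ?_⟩, ⟨?_, ?_⟩, ⟨?_, ?_⟩⟩
    · rw [dt_cyc2]; exact q1
    · rw [dt_cyc2]; exact q2
    · rw [dt_cyc2]; exact r1
    · rw [dt_cyc2]; exact r2
    · rw [dt_cyc2]; exact p1
    · rw [dt_cyc2]; exact p2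

/-- a point off the side `u v` is on the positive side -/
theorem good_pos {ι : Type} (a : ι → V) (d : Dat ι) (h : Good a d) (l : ι) (h1 : l ≠ d.u)
    (h2 : l ≠ d.v) (h3 : l ≠ d.w') : 0 < dt (bv a d.s d.u) (bv a d.s d.v) (bv a d.s l) := by
  by_cases hw : l = d.w
  · rw [hw]; exact h.2.1
  · have := (h.2.2 l h1 h2 hw).2.2
    rcases this.1.lt_or_eq with h4 | h4
    · exact h4
    · exact absurd (this.2.mp h4.symm) h3

/-- what a column says -/
theorem col_dat {ι : Type} (a : ι → V) (d f : Dat ι) (h : Col a d f) :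
    Good a d ∧ Good a f ∧ f.u = d.u ∧ f.v = d.v' ∧ f.w' = d.w ∧
      f.s = flp (flp d.s d.w) d.v' := by
  obtain ⟨fm, g, e, gm, h, k, _, h2, h3, h4, _⟩ := h
  obtain ⟨g1, g2, g3, g4, g5, g6, g7, g8⟩ := h2
  obtain ⟨e1, e2, e3, e4, e5, e6, e7, e8⟩ := h3
  refine ⟨g1, ?_, ?_, ?_, ?_, ?_⟩
  · rw [h4]; exact good_rot a _ (good_rot a _ e2)
  · rw [h4]; simp only [rot]; rw [e6, g7]
  · rw [h4]; simp only [rot]; rw [e4, g6]
  · rw [h4]; simp only [rot]; rw [e7, g4]
  · rw [h4]; simp only [rot]; rw [e3, g3, g6]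

theorem plu (o x y z l : V) :
    dt o y l * dt o x z = dt o z l * dt o x y + dt o x l * dt o y z := by
  simp only [dt]; ring

theorem dis : DisStmt := by
  intro ι _ a hp N f hN hN1 hcol i hi j hj hij
  -- the first entry is constant
  have hO : ∀ i ≤ N, (f i).u = (f 0).u := by
    intro i
    induction i with
    | zero => intro _; rfl
    | succ m ih =>
      intro hm
      rw [(col_dat a _ _ (hcol m (by omega))).2.2.1]
      exact ih (by omega)
  have hG : ∀ i ≤ N, Good a (f i) := by
    intro i hi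
    rcases Nat.eq_zero_or_pos i with h0 | h0
    · rw [h0]; exact (col_dat a _ _ (hcol 0 (by omega))).1
    · obtain ⟨m, rfl⟩ : ∃ m, i = m + 1 := ⟨i - 1, by omega⟩
      exact (col_dat a _ _ (hcol m (by omega))).2.1
  -- an index off the run
  let S : Finset ι := insert (f 0).u ((range (N + 1)).image (fun i => (f i).v) ∪
    (range (N + 1)).image (fun i => (f i).w'))
  have hS : S.card < Fintype.card ι := by
    have h1 : S.card ≤ ((range (N + 1)).image (fun i => (f i).v) ∪
        (range (N + 1)).image (fun i => (f i).w')).card + 1 := Finset.card_insert_le _ _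
    have h2 := Finset.card_union_le ((range (N + 1)).image (fun i => (f i).v))
      ((range (N + 1)).image (fun i => (f i).w'))
    have h3 : ((range (N + 1)).image (fun i => (f i).v)).card ≤ N + 1 := by
      refine le_trans Finset.card_image_le ?_
      rw [Finset.card_range]
    have h4 : ((range (N + 1)).image (fun i => (f i).w')).card ≤ N + 1 := by
      refine le_trans Finset.card_image_le ?_
      rw [Finset.card_range]
    omega
  obtain ⟨l, hl⟩ : ∃ l, l ∉ S := by
    by_contra hcon
    push Not at hcon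
    have : S = univ := Finset.eq_univ_of_forall hcon
    rw [this, Finset.card_univ] at hS
    exact lt_irrefl _ hS
  have hl1 : l ≠ (f 0).u := by
    rintro rfl
    exact hl (Finset.mem_insert_self _ _)
  have hl2 : ∀ i ≤ N, l ≠ (f i).v := by
    rintro i hi h
    apply hl
    refine Finset.mem_insert_of_mem (Finset.mem_union_left _ ?_)
    rw [Finset.mem_image]
    exact ⟨i, Finset.mem_range.mpr (by omega), h.symm⟩
  have hl3 : ∀ i ≤ N, l ≠ (f i).w' := by
    rintro i hi h
    apply hl
    refine Finset.mem_insert_of_mem (Finset.mem_union_right _ ?_)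
    rw [Finset.mem_image]
    exact ⟨i, Finset.mem_range.mpr (by omega), h.symm⟩
  -- the signs of `l` and of the first entry are constant
  have hsl : ∀ i ≤ N, (f i).s l = (f 0).s l ∧ (f i).s (f 0).u = (f 0).s (f 0).u := by
    intro i
    induction i with
    | zero => intro _; exact ⟨rfl, rfl⟩
    | succ m ih =>
      intro hm
      obtain ⟨c1, c2, c3, c4, c5, c6⟩ := col_dat a _ _ (hcol m (by omega))
      obtain ⟨i1, i2⟩ := ih (by omega)
      have hu := hO m (by omega)
      have hnd := c1.1
      simp only [List.nodup_cons, List.mem_cons, List.not_mem_nil, or_false, not_or,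
        not_false_eq_true, List.nodup_nil, and_true] at hnd
      obtain ⟨⟨a1, a2, a3, a4, a5⟩, ⟨b1, b2, b3, b4⟩, ⟨c1', c2', c3'⟩, ⟨d1, d2⟩, e1⟩ := hnd
      rw [c6]
      have n1 : l ≠ (f m).v' := by rw [← c4]; exact hl2 (m + 1) hm
      have n2 : l ≠ (f m).w := by rw [← c5]; exact hl3 (m + 1) hm
      have n3 : (f 0).u ≠ (f m).v' := by rw [← hu]; exact a4
      have n4 : (f 0).u ≠ (f m).w := by rw [← hu]; exact a2
      constructor
      · simp only [flp, Function.update_of_ne n1, Function.update_of_ne n2]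
        exact i1
      · simp only [flp, Function.update_of_ne n3, Function.update_of_ne n4]
        exact i2
  -- the vectors
  let o : V := bv a (f 0).s (f 0).u
  let b : V := bv a (f 0).s l
  let p : ℕ → V := fun i => bv a (f i).s (f i).v
  have ho : ∀ i ≤ N, bv a (f i).s (f i).u = o := by
    intro i hi
    simp only [o, bv]
    rw [hO i hi, (hsl i hi).2]
  have hb : ∀ i ≤ N, bv a (f i).s l = b := by
    intro i hi
    simp only [b, bv]
    rw [(hsl i hi).1]
  have hpos : ∀ i ≤ N, 0 < dt o (p i) b := by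
    intro i hi
    have := good_pos a (f i) (hG i hi) l (by rw [hO i hi]; exact hl1) (hl2 i hi) (hl3 i hi)
    rw [ho i hi, hb i hi] at this
    exact this
  have hstep : ∀ i < N, dt o (p i) (p (i + 1)) < 0 := by
    intro i hi
    obtain ⟨c1, c2, c3, c4, c5, c6⟩ := col_dat a _ _ (hcol i hi)
    have hnd := c1.1
    simp only [List.nodup_cons, List.mem_cons, List.not_mem_nil, or_false, not_or,
      not_false_eq_true, List.nodup_nil, and_true] at hnd
    obtain ⟨⟨a1, a2, a3, a4, a5⟩, ⟨b1, b2, b3, b4⟩, ⟨c1', c2', c3'⟩, ⟨d1, d2⟩, e1⟩ := hnd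
    have h1 := good_pos a (f i) c1 (f i).v' (Ne.symm a4) (Ne.symm b3) e1
    have h2 : p (i + 1) = - bv a (f i).s (f i).v' := by
      simp only [p, bv]
      rw [c4, c6]
      have : flp (flp (f i).s (f i).w) (f i).v' (f i).v' = !((f i).s (f i).v') := by
        simp only [flp, Function.update_self]
        rw [Function.update_of_ne (Ne.symm c2')]
      rw [this]
      cases (f i).s (f i).v' <;> simp [sg]
    rw [h2]
    rw [ho i (by omega)] at h1
    have h3 : dt o (p i) (- bv a (f i).s (f i).v') = - dt o (p i) (bv a (f i).s (f i).v') := by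
      simp only [dt, Pi.neg_apply]; ring
    rw [h3]
    have : dt o (bv a (f i).s (f i).v) (bv a (f i).s (f i).v') = dt o (p i)
      (bv a (f i).s (f i).v') := rfl
    rw [← this]
    linarith
  have hall : ∀ i j, i < j → j ≤ N → dt o (p i) (p j) < 0 := by
    intro i j hij
    induction j, hij using Nat.le_induction with
    | base => intro hj; exact hstep i (by omega)
    | succ m hm ih =>
      intro hj
      have h1 := ih (by omega)
      have h2 := hstep m (by omega)
      have h3 := hpos i (by omega)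
      have h4 := hpos m (by omega)
      have h5 := hpos (m + 1) hj
      have h6 := plu o (p i) (p m) (p (m + 1)) b
      by_contra hcon
      push Not at hcon
      have h7 : dt o (p (m + 1)) b * dt o (p i) (p m) < 0 := mul_neg_of_pos_of_neg h5 h1
      have h8 : dt o (p i) b * dt o (p m) (p (m + 1)) < 0 := mul_neg_of_pos_of_neg h3 h2
      have h9 : 0 ≤ dt o (p m) b * dt o (p i) (p (m + 1)) := mul_nonneg h4.le hcon
      linarith
  -- conclusion
  have hfin : ∀ i ≤ N, ∀ j ≤ N, i < j → ln a (f 0).u (f i).v ≠ ln a (f 0).u (f j).v := by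
    intro i hi j hj hij heq
    have h1 := hall i j hij hj
    have h2 : (f j).v ∈ ln a (f 0).u (f j).v := by rw [mem_ln]; simp only [dt]; ring
    rw [← heq, mem_ln] at h2
    have h3 : dt o (p i) (p j) = 0 := by
      have : dt o (p i) (p j) = sg ((f 0).s (f 0).u) * sg ((f i).s (f i).v) *
          sg ((f j).s (f j).v) * dt (a (f 0).u) (a (f i).v) (a (f j).v) := by
        simp only [o, p, bv, dt, Pi.smul_apply, smul_eq_mul]
        ring
      rw [this, h2, mul_zero]
    linarith
  rcases lt_or_gt_of_ne hij with h | h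
  · exact hfin i hi j hj h
  · exact (hfin j hj i hi h).symm

end Pool.Agent.GTO.H7
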