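import Pool.Agent.GTO.StmtsB

/-! Squad GTO, row FRM (counting in the frozen format). -/

namespace Pool.Agent.GTO.H7

open Finset
open scoped Classical

/-- the plane -/
abbrev E2 := EuclideanSpace ℝ (Fin 2)

/-- the configuration -/
abbrev cfg (P : Finset E2) : {x // x ∈ P} → V := fun p => hom p.1

/-- the set of points of a line -/
noncomputable def lset (P : Finset E2) (p q : {x // x ∈ P}) : Finset E2 :=
  (ln (cfg P) p q).map ⟨Subtype.val, Subtype.val_injective⟩

theorem mem_lset (P : Finset E2) (p q : {x // x ∈ P}) (r : E2) :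
    r ∈ lset P p q ↔ r ∈ P ∧ dt (hom p.1) (hom q.1) (hom r) = 0 := by
  unfold lset ln
  simp only [Finset.mem_map, Finset.mem_filter, Finset.mem_univ, true_and,
    Function.Embedding.coeFn_mk, Subtype.exists, exists_and_right, exists_eq_right]
  constructor
  · rintro ⟨h1, h2⟩; exact ⟨h1, h2⟩
  · rintro ⟨h1, h2⟩; exact ⟨h1, h2⟩

theorem card_lset (P : Finset E2) (p q : {x // x ∈ P}) :
    (lset P p q).card = (ln (cfg P) p q).card := Finset.card_map _

theorem lset_mem_T3 (hcld : CldStmt) (P : Finset E2) (p q : {x // x ∈ P}) (hpq : p ≠ q)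
    (hc : (ln (cfg P) p q).card = 3) : lset P p q ∈ T3 P := by
  have hpq' : p.1 ≠ q.1 := fun h => hpq (Subtype.ext h)
  have hp : p.1 ∈ lset P p q := by
    rw [mem_lset]; refine ⟨p.2, ?_⟩; simp only [dt]; ring
  have hq : q.1 ∈ lset P p q := by
    rw [mem_lset]; refine ⟨q.2, ?_⟩; simp only [dt]; ring
  refine ⟨?_, ?_, ?_, ?_⟩
  · intro r hr
    exact ((mem_lset P p q r).mp hr).1
  · rw [card_lset]; exact hc
  · -- the three points
    have h3 : (lset P p q).card = 3 := by rw [card_lset]; exact hc
    have h4 : (((lset P p q).erase p.1).erase q.1).card = 1 := by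
      rw [Finset.card_erase_of_mem, Finset.card_erase_of_mem hp, h3]
      exact Finset.mem_erase.mpr ⟨hpq'.symm, hq⟩
    obtain ⟨r, hr⟩ := Finset.card_eq_one.mp h4
    have hr' : r ∈ ((lset P p q).erase p.1).erase q.1 := by rw [hr]; simp
    have hr2 := (Finset.mem_erase.mp (Finset.mem_erase.mp hr').2).2
    have hsub : (lset P p q : Set E2) ⊆ {p.1, q.1, r} := by
      intro x hx
      by_cases h1 : x = p.1
      · rw [h1]; simp
      · by_cases h2 : x = q.1
        · rw [h2]; simp
        · have : x ∈ ((lset P p q).erase p.1).erase q.1 :=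
            Finset.mem_erase.mpr ⟨h2, Finset.mem_erase.mpr ⟨h1, hx⟩⟩
          rw [hr] at this
          rw [Finset.mem_singleton] at this
          rw [this]; simp
    refine Collinear.subset hsub ?_
    exact (hcld.2 p.1 q.1 r).mpr ((mem_lset P p q r).mp hr2).2
  · intro x hx hcol
    rw [mem_lset]
    refine ⟨hx, ?_⟩
    rw [← hcld.2]
    refine Collinear.subset ?_ hcol
    intro y hy
    simp only [Set.mem_insert_iff, Set.mem_singleton_iff] at hy
    rcases hy with rfl | rfl | rfl
    · exact Set.mem_insert_of_mem _ hp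
    · exact Set.mem_insert_of_mem _ hq
    · exact Set.mem_insert _ _

theorem lset_eq (hcld : CldStmt) (P : Finset E2) (S : Finset E2) (hS : S ∈ T3 P)
    (p q : {x // x ∈ P}) (hpq : p ≠ q) (hp : p.1 ∈ S) (hq : q.1 ∈ S) : lset P p q = S := by
  have hpq' : p.1 ≠ q.1 := fun h => hpq (Subtype.ext h)
  obtain ⟨h1, h2, h3, h4⟩ := hS
  ext r
  rw [mem_lset]
  constructor
  · rintro ⟨hr, hd⟩
    refine h4 r hr ?_
    rw [Collinear.collinear_insert_iff_of_ne h3 (Finset.mem_coe.mpr hp) (Finset.mem_coe.mpr hq)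
      hpq']
    have h5 := (hcld.2 p.1 q.1 r).mpr hd
    refine Collinear.subset ?_ h5
    intro y hy
    simp only [Set.mem_insert_iff, Set.mem_singleton_iff] at hy ⊢
    tauto
  · intro hr
    refine ⟨h1 hr, ?_⟩
    rw [← hcld.2]
    refine Collinear.subset ?_ h3
    intro y hy
    simp only [Set.mem_insert_iff, Set.mem_singleton_iff] at hy
    rcases hy with rfl | rfl | rfl
    · exact hp
    · exact hq
    · exact hr

theorem frm (hcld : CldStmt) : FrmStmt := by
  intro P
  refine ⟨?_, ?_⟩
  · intro i j hij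
    exact hcld.1 i.1 j.1 (fun h => hij (Subtype.ext h))
  · -- the finite set of the lines with three points
    let T : Finset (Finset E2) := (P.powersetCard 3).filter fun S => S ∈ T3 P
    have hT : (T3 P).ncard = T.card := by
      rw [← Set.ncard_coe_finset]
      congr 1
      ext S
      simp only [T, Finset.coe_filter, Finset.mem_powersetCard, Set.mem_ofPred_eq]
      constructor
      · intro h; exact ⟨⟨h.1, h.2.1⟩, h⟩
      · intro h; exact h.2
    rw [hT]
    let O : Finset ({x // x ∈ P} × {x // x ∈ P}) := univ.offDiag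
    have hO : O.card = P.card * (P.card - 1) := by
      rw [Finset.offDiag_card, Finset.card_univ, Fintype.card_coe, Nat.mul_sub, mul_one]
    rw [← hO]
    have hsplit : O.card = (O.filter fun p => (ln (cfg P) p.1 p.2).card = 3).card +
        (O.filter fun p => ¬ (ln (cfg P) p.1 p.2).card = 3).card := by
      rw [Finset.card_filter_add_card_filter_not]
    have hD : (O.filter fun p => ¬ (ln (cfg P) p.1 p.2).card = 3).card = D2 (cfg P) := by
      unfold D2
      congr 1
      ext p
      simp [O]
    have h6 : (O.filter fun p => (ln (cfg P) p.1 p.2).card = 3).card = 6 * T.card := by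
      rw [Finset.card_eq_sum_card_fiberwise (f := fun p => lset P p.1 p.2) (t := T)]
      · rw [mul_comm, ← smul_eq_mul, ← Finset.sum_const]
        refine Finset.sum_congr rfl ?_
        intro S hS
        obtain ⟨hS1, hS2⟩ := Finset.mem_filter.mp hS
        have hS3 := Finset.mem_powersetCard.mp hS1
        have hoff : S.offDiag.card = 6 := by
          rw [Finset.offDiag_card, hS3.2]
        rw [← hoff]
        refine Finset.card_bij (fun p _ => (p.1.1, p.2.1)) ?_ ?_ ?_
        · intro p hp
          obtain ⟨hp1, hp2⟩ := Finset.mem_filter.mp hp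
          obtain ⟨hp3, hp4⟩ := Finset.mem_filter.mp hp1
          have hne : p.1 ≠ p.2 := (Finset.mem_offDiag.mp hp3).2.2
          rw [Finset.mem_offDiag]
          refine ⟨?_, ?_, ?_⟩
          · rw [← hp2, mem_lset]; refine ⟨p.1.2, ?_⟩; simp only [dt]; ring
          · rw [← hp2, mem_lset]; refine ⟨p.2.2, ?_⟩; simp only [dt]; ring
          · exact fun h => hne (Subtype.ext h)
        · rintro ⟨p1, p2⟩ _ ⟨q1, q2⟩ _ h
          simp only [Prod.mk.injEq] at h ⊢
          exact ⟨Subtype.ext h.1, Subtype.ext h.2⟩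
        · rintro ⟨x, y⟩ hxy
          obtain ⟨hx, hy, hne⟩ := Finset.mem_offDiag.mp hxy
          simp only at hx hy hne
          have hne' : (⟨x, hS3.1 hx⟩ : {x // x ∈ P}) ≠ ⟨y, hS3.1 hy⟩ := by
            intro h; exact hne (congrArg Subtype.val h)
          have hl := lset_eq hcld P S hS2 ⟨x, hS3.1 hx⟩ ⟨y, hS3.1 hy⟩ hne' hx hy
          refine ⟨(⟨x, hS3.1 hx⟩, ⟨y, hS3.1 hy⟩), ?_, rfl⟩
          refine Finset.mem_filter.mpr ⟨Finset.mem_filter.mpr ⟨?_, ?_⟩, hl⟩
          · rw [Finset.mem_offDiag]
            exact ⟨Finset.mem_univ _, Finset.mem_univ _, hne'⟩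
          · have h8 := card_lset P ⟨x, hS3.1 hx⟩ ⟨y, hS3.1 hy⟩
            rw [hl] at h8
            exact h8.symm.trans hS3.2
      · intro p hp
        obtain ⟨hp3, hp4⟩ := Finset.mem_filter.mp hp
        have hne : p.1 ≠ p.2 := (Finset.mem_offDiag.mp hp3).2.2
        have h9 := lset_mem_T3 hcld P p.1 p.2 hne hp4
        refine Finset.mem_coe.mpr (Finset.mem_filter.mpr ⟨?_, h9⟩)
        exact Finset.mem_powersetCard.mpr ⟨h9.1, h9.2.1⟩
    have hD' : D2 (fun p : {x // x ∈ P} => hom p.1) = D2 (cfg P) := rfl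
    rw [hD']
    omega

end Pool.Agent.GTO.H7
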