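import Pool.Agent.GTO.StmtsB

/-! Squad GTO, row GMN (main theorem from the parts). -/

namespace Pool.Agent.GTO.H7

open Finset
open scoped Classical

theorem gmn (hst : St1Stmt) (hup : UppStmt) (hyb : YbdStmt) (hgr : GrpStmt) (hsc : StcStmt)
    (hfi : FinStmt) : GmnStmt := by
  intro ι _ a hp hn
  by_cases hD : D2 a ≤ 2 * Fintype.card ι
  · by_cases hs : Spn a
    · obtain ⟨c, hc, hz⟩ := hst ι a hp hs hn hD
      have hT := hup ι a hp hs (by omega) c hc hz
      have hZ := hyb ι a c hp hn hD hT hz
      obtain ⟨⟨G, hG, φ, hgrp⟩, hsng⟩ := hgr c hc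
      obtain ⟨H, hC, hQ, hM⟩ := hsc ι a c G φ hp hc hgrp hsng hn hD hT hZ
      exact hfi ι a c G φ H hC hn hQ hM
    · have hall : ∀ i j k, dt (a i) (a j) (a k) = 0 := by
        intro i j k
        by_contra h
        exact hs ⟨i, j, k, h⟩
      have hln : ∀ i j, ln a i j = univ := by
        intro i j
        refine Finset.eq_univ_of_forall ?_
        intro k
        exact Finset.mem_filter.mpr ⟨Finset.mem_univ _, hall i j k⟩
      have hD2 : D2 a = ((univ : Finset ι).offDiag).card := by
        unfold D2
        congr 1
        ext p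
        simp only [Finset.mem_filter, Finset.mem_univ, true_and, Finset.mem_offDiag, hln,
          Finset.card_univ]
        constructor
        · intro h; exact h.1
        · intro h; exact ⟨h, by omega⟩
      rw [hD2, Finset.offDiag_card, Finset.card_univ]
      have : 3 * Fintype.card ι ≤ Fintype.card ι * Fintype.card ι :=
        Nat.mul_le_mul_right _ (by omega)
      omega
  · omega

end Pool.Agent.GTO.H7
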