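import Pool.Agent.GTO.StmtsB

/-! Squad GTO, row TAN. -/

namespace Pool.Agent.GTO.H7

open Finset
open scoped Classical

theorem phi_inj {ι : Type} [Fintype ι] (a : ι → V) (c : Fin 10 → ℝ) (G : Type)
    [AddCommGroup G] (φ : V → G) (H : Finset G) (hC : Cnf a c G φ H) (i j : ι)
    (hi : i ∈ QQ a c φ H) (hj : j ∈ QQ a c φ H) (h : φ (a i) = φ (a j)) : i = j := by
  by_contra hne
  have h1 := (Finset.mem_filter.mp hi).2.1
  have h2 := (Finset.mem_filter.mp hj).2.1
  exact hC.pi i j hne ((hC.grp.par _ _ h1 h2).mp h)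

theorem tan (hct : Ct6Stmt) (hfx : Fx3Stmt) : TanStmt := by
  intro ι _ a c G _ φ H hC
  have hct1 := (hct ι a c G φ H hC).1
  let A : Finset ι := (TANo a c φ H).image Prod.fst
  let B : Finset ι := (QQ a c φ H).filter fun i => φ (a i) + φ (a i) + φ (a i) = 0
  let C : Finset ι := (MM a c φ H).biUnion fun μ =>
    (QQ a c φ H).filter fun i => φ (a i) + φ (a i) + μ = 0
  have hA : A.card ≤ (TANo a c φ H).card := Finset.card_image_le
  have hB : B.card ≤ 3 := by
    let T : Finset G := H.filter fun g => g + g + g = 0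
    have hT : T.card ≤ 3 := by
      refine hfx c G φ hC.nl hC.grp T ?_ ?_ ?_
      · intro g hg h hh
        obtain ⟨g1, g2⟩ := Finset.mem_filter.mp hg
        obtain ⟨h1, h2⟩ := Finset.mem_filter.mp hh
        refine Finset.mem_filter.mpr ⟨hC.clo g g1 h h1, ?_⟩
        have : (-g - h) + (-g - h) + (-g - h) = -(g + g + g) - (h + h + h) := by abel
        rw [this, g2, h2]
        simp
      · intro g hg
        exact (Finset.mem_filter.mp hg).2
      · intro g hg
        exact hC.pts g (Finset.mem_filter.mp hg).1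
    refine le_trans ?_ hT
    refine Finset.card_le_card_of_injOn (fun i => φ (a i)) ?_ ?_
    · intro i hi
      obtain ⟨h1, h2⟩ := Finset.mem_filter.mp hi
      exact Finset.mem_filter.mpr ⟨(Finset.mem_filter.mp h1).2.2, h2⟩
    · intro i hi j hj h
      exact phi_inj a c G φ H hC i j (Finset.mem_filter.mp hi).1 (Finset.mem_filter.mp hj).1 h
  have hCc : C.card ≤ 6 * (MM a c φ H).card := by
    refine le_trans Finset.card_biUnion_le ?_
    refine le_trans (Finset.sum_le_card_nsmul _ _ 6 ?_) ?_
    · intro μ hμ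
      exact hct1 μ (Finset.mem_filter.mp hμ).1
    · rw [smul_eq_mul, mul_comm]
  have hsub : QQ a c φ H ⊆ A ∪ B ∪ C := by
    intro i hi
    obtain ⟨_, hi1, hi2⟩ := Finset.mem_filter.mp hi
    have hμ : -φ (a i) - φ (a i) ∈ H := hC.clo _ hi2 _ hi2
    by_cases hex : ∃ j ∈ QQ a c φ H, φ (a j) = -φ (a i) - φ (a i)
    · obtain ⟨j, hj, hj2⟩ := hex
      have hz : φ (a i) + φ (a i) + φ (a j) = 0 := by rw [hj2]; abel
      by_cases hij : i = j
      · apply Finset.mem_union_left
        apply Finset.mem_union_right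
        refine Finset.mem_filter.mpr ⟨hi, ?_⟩
        rw [← hij] at hz
        exact hz
      · apply Finset.mem_union_left
        apply Finset.mem_union_left
        refine Finset.mem_image.mpr ⟨(i, j), ?_, rfl⟩
        exact Finset.mem_filter.mpr ⟨Finset.mem_univ _, hi, hj, hij, hz⟩
    · apply Finset.mem_union_right
      refine Finset.mem_biUnion.mpr ⟨-φ (a i) - φ (a i), ?_, ?_⟩
      · refine Finset.mem_filter.mpr ⟨hμ, ?_⟩
        intro j hj h
        exact hex ⟨j, hj, h⟩
      · refine Finset.mem_filter.mpr ⟨hi, ?_⟩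
        abel
  have h1 := Finset.card_le_card hsub
  have h2 := Finset.card_union_le (A ∪ B) C
  have h3 := Finset.card_union_le A B
  omega

end Pool.Agent.GTO.H7
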