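import Pool.Agent.GTO.StmtsA

/-! Squad GTO, row TRI (triangular topes). -/

namespace Pool.Agent.GTO.H7

open Finset
open scoped Classical

theorem sg_sq (b : Bool) : sg b * sg b = 1 := by
  cases b <;> simp [sg]

theorem sg_ne (b : Bool) : sg b ≠ 0 := by
  cases b <;> simp [sg]

theorem dt_bv {ι : Type} (a : ι → V) (σ : ι → Bool) (i j k : ι) :
    dt (bv a σ i) (bv a σ j) (bv a σ k) =
      sg (σ i) * sg (σ j) * sg (σ k) * dt (a i) (a j) (a k) := by
  simp only [dt, bv, Pi.smul_apply, smul_eq_mul]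
  ring

theorem dt_bv_zero {ι : Type} (a : ι → V) (σ : ι → Bool) (i j k : ι) :
    dt (bv a σ i) (bv a σ j) (bv a σ k) = 0 ↔ dt (a i) (a j) (a k) = 0 := by
  rw [dt_bv]
  constructor
  · intro h
    rcases mul_eq_zero.mp h with h | h
    · exfalso
      exact mul_ne_zero (mul_ne_zero (sg_ne _) (sg_ne _)) (sg_ne _) h
    · exact h
  · intro h
    rw [h, mul_zero]

theorem dt_cyc (u v w : V) : dt u v w = dt v w u := by
  simp only [dt]; ring

theorem dt_cyc2 (u v w : V) : dt u v w = dt w u v := by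
  simp only [dt]; ring

theorem dt_swap (u v w : V) : dt u w v = - dt u v w := by
  simp only [dt]; ring

/-- the determinant of three combinations of three vectors -/
theorem dt_comb (u v w : V) (p q r p' q' r' p'' q'' r'' : ℝ) :
    dt (p • u + q • v + r • w) (p' • u + q' • v + r' • w) (p'' • u + q'' • v + r'' • w) =
      (p * (q' * r'' - r' * q'') - q * (p' * r'' - r' * p'') + r * (p' * q'' - q' * p'')) *
        dt u v w := by
  simp only [dt, Pi.add_apply, Pi.smul_apply, smul_eq_mul]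
  ring

theorem dt_c1 (u v w : V) (p q r : ℝ) : dt (p • u + q • v + r • w) v w = p * dt u v w := by
  simp only [dt, Pi.add_apply, Pi.smul_apply, smul_eq_mul]
  ring

theorem dt_c2 (u v w : V) (p q r : ℝ) : dt u (p • u + q • v + r • w) w = q * dt u v w := by
  simp only [dt, Pi.add_apply, Pi.smul_apply, smul_eq_mul]
  ring

theorem dt_c3 (u v w : V) (p q r : ℝ) : dt u v (p • u + q • v + r • w) = r * dt u v w := by
  simp only [dt, Pi.add_apply, Pi.smul_apply, smul_eq_mul]
  ring

theorem mem_ln {ι : Type} [Fintype ι] (a : ι → V) (i j k : ι) :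
    k ∈ ln a i j ↔ dt (a i) (a j) (a k) = 0 := by
  simp [ln]

/-- the third point of a line with three points -/
theorem third {ι : Type} [Fintype ι] (a : ι → V) (v w : ι) (hvw : v ≠ w)
    (hc : (ln a v w).card = 3) : ∃ u', u' ≠ v ∧ u' ≠ w ∧ ∀ l, l ∈ ln a v w ↔
      l = v ∨ l = w ∨ l = u' := by
  have hv : v ∈ ln a v w := by rw [mem_ln]; simp only [dt]; ring
  have hw : w ∈ ln a v w := by rw [mem_ln]; simp only [dt]; ring
  have h1 : (((ln a v w).erase v).erase w).card = 1 := by
    rw [Finset.card_erase_of_mem, Finset.card_erase_of_mem hv, hc]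
    exact Finset.mem_erase.mpr ⟨hvw.symm, hw⟩
  obtain ⟨x, hx⟩ := Finset.card_eq_one.mp h1
  have hx' : x ∈ ((ln a v w).erase v).erase w := by rw [hx]; simp
  have hx2 := Finset.mem_erase.mp hx'
  have hx3 := Finset.mem_erase.mp hx2.2
  refine ⟨x, hx3.1, hx2.1, ?_⟩
  intro l
  constructor
  · intro hl
    by_cases h2 : l = v
    · exact Or.inl h2
    · by_cases h3 : l = w
      · exact Or.inr (Or.inl h3)
      · right; right
        have : l ∈ ((ln a v w).erase v).erase w :=
          Finset.mem_erase.mpr ⟨h3, Finset.mem_erase.mpr ⟨h2, hl⟩⟩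
        rw [hx] at this
        simpa using this
  · rintro (h | h | h)
    · rw [h]; exact hv
    · rw [h]; exact hw
    · rw [h]; exact hx3.2

/-- two common points of two lines through `w`: with `x` on `v w` and on `w u`, `x` different from
`w`, the determinant of `u v w` is zero -/
theorem meet {ι : Type} (a : ι → V) (hp : PI a) (u v w x : ι) (hxw : x ≠ w)
    (h1 : dt (a v) (a w) (a x) = 0) (h2 : dt (a w) (a u) (a x) = 0) :
    dt (a u) (a v) (a w) = 0 := by
  by_contra hne
  have hcr : cr (a x) (a w) ≠ 0 := hp x w hxw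
  apply hcr
  -- `dt u v w • x = dt x v w • u + dt u x w • v + dt u v x • w`, so `x` is parallel to `w`
  have hx0 : ∀ m : Fin 3, dt (a u) (a v) (a w) * a x m = dt (a u) (a v) (a x) * a w m := by
    intro m
    have e1 : dt (a x) (a v) (a w) = 0 := by rw [← h1]; simp only [dt]; ring
    have e2 : dt (a u) (a x) (a w) = 0 := by
      have : dt (a u) (a x) (a w) = dt (a w) (a u) (a x) := by simp only [dt]; ring
      rw [this, h2]
    have key : dt (a u) (a v) (a w) * a x m = dt (a x) (a v) (a w) * a u m +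
        dt (a u) (a x) (a w) * a v m + dt (a u) (a v) (a x) * a w m := by
      fin_cases m <;> (simp only [dt]; simp; ring)
    rw [key, e1, e2]; ring
  have h0 := hx0 0
  have h1' := hx0 1
  have h2' := hx0 2
  funext m
  have goal3 : ∀ m : Fin 3, dt (a u) (a v) (a w) * cr (a x) (a w) m = 0 := by
    intro m
    fin_cases m
    · change dt (a u) (a v) (a w) * (a x 1 * a w 2 - a x 2 * a w 1) = 0
      linear_combination (a w 2) * h1' - (a w 1) * h2'
    · change dt (a u) (a v) (a w) * (a x 2 * a w 0 - a x 0 * a w 2) = 0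
      linear_combination (a w 0) * h2' - (a w 2) * h0
    · change dt (a u) (a v) (a w) * (a x 0 * a w 1 - a x 1 * a w 0) = 0
      linear_combination (a w 1) * h0 - (a w 0) * h1'
  rcases mul_eq_zero.mp (goal3 m) with h | h
  · exact absurd h hne
  · simpa using h

theorem tripos {ι : Type} [Fintype ι] (a : ι → V) (hp : PI a) (σ : ι → Bool) (u v w : ι)
    (huv : u ≠ v) (hvw : v ≠ w) (hwu : w ≠ u)
    (hc : ∀ l, ∃ p q r : ℝ, 0 ≤ p ∧ 0 ≤ q ∧ 0 ≤ r ∧
      bv a σ l = p • bv a σ u + q • bv a σ v + r • bv a σ w)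
    (hd : 0 < dt (bv a σ u) (bv a σ v) (bv a σ w))
    (h1 : (ln a u v).card = 3) (h2 : (ln a v w).card = 3) (h3 : (ln a w u).card = 3) :
    IsGood a σ := by
  have hd0 : dt (a u) (a v) (a w) ≠ 0 := by
    intro h
    rw [(dt_bv_zero a σ u v w).mpr h] at hd
    exact lt_irrefl _ hd
  obtain ⟨u', hu1, hu2, hu⟩ := third a v w hvw h2
  obtain ⟨v', hv1, hv2, hv⟩ := third a w u hwu h3
  obtain ⟨w', hw1, hw2, hw⟩ := third a u v huv h1
  have mu : dt (a v) (a w) (a u') = 0 := (mem_ln a v w u').mp ((hu u').mpr (Or.inr (Or.inr rfl)))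
  have mv : dt (a w) (a u) (a v') = 0 := (mem_ln a w u v').mp ((hv v').mpr (Or.inr (Or.inr rfl)))
  have mw : dt (a u) (a v) (a w') = 0 := (mem_ln a u v w').mp ((hw w').mpr (Or.inr (Or.inr rfl)))
  have n1 : u' ≠ u := by
    intro h; rw [h] at mu
    exact hd0 (by rw [dt_cyc]; exact mu)
  have n2 : v' ≠ v := by
    intro h; rw [h] at mv
    exact hd0 (by rw [dt_cyc2]; exact mv)
  have n3 : w' ≠ w := by
    intro h; rw [h] at mw
    exact hd0 mw
  have n4 : u' ≠ v' := by
    intro h; rw [← h] at mv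
    exact hd0 (meet a hp u v w u' hu2 mu mv)
  have n5 : v' ≠ w' := by
    intro h; rw [← h] at mw
    have := meet a hp v w u v' hv2 mv mw
    exact hd0 (by rw [dt_cyc]; exact this)
  have n6 : w' ≠ u' := by
    intro h; rw [← h] at mu
    have := meet a hp w u v w' hw2 mw mu
    exact hd0 (by rw [dt_cyc2]; exact this)
  refine ⟨⟨σ, u, v, w, u', v', w'⟩, rfl, ?_, hd, ?_⟩
  · simp only [List.nodup_cons, List.mem_cons, List.not_mem_nil, or_false, not_or,
      not_false_eq_true, List.nodup_nil, and_true]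
    refine ⟨⟨huv, hwu.symm, n1.symm, hv2.symm, hw1.symm⟩, ⟨hvw, hu1.symm, n2.symm, hw2.symm⟩,
      ⟨hu2.symm, hv1.symm, n3.symm⟩, ⟨n4, n6.symm⟩, n5⟩
  · intro l hlu hlv hlw
    dsimp only at hlu hlv hlw ⊢
    obtain ⟨p, q, r, hp0, hq0, hr0, hl⟩ := hc l
    refine ⟨⟨?_, ?_⟩, ⟨?_, ?_⟩, ⟨?_, ?_⟩⟩
    · rw [hl, dt_c1]; exact mul_nonneg hp0 hd.le
    · rw [dt_bv_zero, dt_cyc, ← mem_ln, hu]
      constructor
      · rintro (h | h | h)
        · exact absurd h hlv
        · exact absurd h hlw
        · exact h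
      · intro h; exact Or.inr (Or.inr h)
    · rw [hl, dt_c2]; exact mul_nonneg hq0 hd.le
    · rw [dt_bv_zero, dt_cyc2, ← mem_ln, hv]
      constructor
      · rintro (h | h | h)
        · exact absurd h hlw
        · exact absurd h hlu
        · exact h
      · intro h; exact Or.inr (Or.inr h)
    · rw [hl, dt_c3]; exact mul_nonneg hr0 hd.le
    · rw [dt_bv_zero, ← mem_ln, hw]
      constructor
      · rintro (h | h | h)
        · exact absurd h hlu
        · exact absurd h hlv
        · exact h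
      · intro h; exact Or.inr (Or.inr h)

theorem tri (hfar : FarStmt) : TriStmt := by
  intro ι _ a hp hs σ u v w hT hW huv hvw hwu
  obtain ⟨i, j, k, hijk⟩ := hs
  have h2 : 2 ≤ Fintype.card ι := by
    have : i ≠ j := by
      rintro rfl
      apply hijk
      simp only [dt]; ring
    exact Fintype.one_lt_card_iff.mpr ⟨i, j, this⟩
  obtain ⟨W, hWs, hWc⟩ := hfar ι a hp h2 σ hT
  have hc : ∀ l, ∃ p q r : ℝ, 0 ≤ p ∧ 0 ≤ q ∧ 0 ≤ r ∧
      bv a σ l = p • bv a σ u + q • bv a σ v + r • bv a σ w := by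
    intro l
    obtain ⟨c, hc0, hcW, hcl⟩ := hWc l
    refine ⟨c u, c v, c w, hc0 u, hc0 v, hc0 w, ?_⟩
    rw [hcl]
    have hsub : ∑ x ∈ ({u, v, w} : Finset ι), c x • bv a σ x = ∑ x, c x • bv a σ x := by
      apply Finset.sum_subset (Finset.subset_univ _)
      intro x _ hx
      have : x ∉ W := by
        intro h
        apply hx
        rw [← hW]
        exact hWs h
      rw [hcW x this, zero_smul]
    rw [← hsub, Finset.sum_insert, Finset.sum_insert, Finset.sum_singleton]
    · rw [add_assoc]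
    · simpa using hvw
    · simp only [Finset.mem_insert, Finset.mem_singleton, not_or]
      exact ⟨huv, hwu.symm⟩
  have hd : dt (bv a σ u) (bv a σ v) (bv a σ w) ≠ 0 := by
    intro h0
    apply hijk
    rw [← dt_bv_zero a σ]
    obtain ⟨p, q, r, _, _, _, e1⟩ := hc i
    obtain ⟨p', q', r', _, _, _, e2⟩ := hc j
    obtain ⟨p'', q'', r'', _, _, _, e3⟩ := hc k
    rw [e1, e2, e3, dt_comb, h0, mul_zero]
  refine ⟨hc, hd, ?_⟩
  intro h1 h2 h3
  rcases lt_or_gt_of_ne hd with hlt | hgt
  · have hlc : ∀ x y : ι, ln a x y = ln a y x := by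
      intro x y
      ext z
      rw [mem_ln, mem_ln]
      have : dt (a y) (a x) (a z) = - dt (a x) (a y) (a z) := by simp only [dt]; ring
      rw [this, neg_eq_zero]
    refine tripos a hp σ u w v hwu.symm hvw.symm huv.symm ?_ ?_ ?_ ?_ ?_
    · intro l
      obtain ⟨p, q, r, hp0, hq0, hr0, hl⟩ := hc l
      refine ⟨p, r, q, hp0, hr0, hq0, ?_⟩
      rw [hl]
      abel
    · rw [dt_swap]; linarith
    · rw [hlc]; exact h3
    · rw [hlc]; exact h2
    · rw [hlc]; exact h1
  · exact tripos a hp σ u v w huv hvw hwu hc hgt h1 h2 h3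

end Pool.Agent.GTO.H7
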